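import Pool.Agent.helper78.WB.SpecIII

/-!
# Row wb:III.GC (MP_bb5cc8_nt): the good points of a prime.
-/

set_option autoImplicit false

namespace Pool.Agent.WB

open MvPolynomial

theorem GC (h1 : CELL_stmt) : GC_stmt := by
  classical
  intro ℓ hℓ N d m K' p hirr hhom hd hK hm hmK hsize C hNP hC
  -- the chart of a point
  have hch : ∀ ζ : V3, ∃ j : Fin 3, ζ ∈ C → (¬ (ℓ : ℤ) ∣ ζ j ∧
      ¬ ordGE m (loc j (redv ℓ ζ) (redp ℓ p))) := by
    intro ζ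
    by_cases hz : ζ ∈ C
    · obtain ⟨j, hj⟩ := (hC ζ hz).2.2
      exact ⟨j, fun _ => hj⟩
    · exact ⟨0, fun h => absurd h hz⟩
  choose jj hjj using hch
  let key : V3 → Fin 3 × (Fin 2 → ZMod ℓ) := fun ζ =>
    (jj ζ, fun t => ((ζ ((jj ζ).succAbove t) : ℤ) : ZMod ℓ) * ((ζ (jj ζ) : ℤ) : ZMod ℓ)⁻¹)
  have hcell : ∀ b : Fin 3 × (Fin 2 → ZMod ℓ), (C.filter (fun ζ => key ζ = b)).card ≤ d * (d - 1) := by
    intro b
    rcases (C.filter (fun ζ => key ζ = b)).eq_empty_or_nonempty with he | ⟨ζ₁, hζ₁⟩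
    · rw [he]; simp
    have hmem : ∀ ζ ∈ C.filter (fun ζ => key ζ = b), ζ ∈ C ∧ jj ζ = b.1 ∧
        ∀ t, ((ζ (b.1.succAbove t) : ℤ) : ZMod ℓ) * ((ζ b.1 : ℤ) : ZMod ℓ)⁻¹ = b.2 t := by
      intro ζ hζ
      rw [Finset.mem_filter] at hζ
      obtain ⟨hz, hk⟩ := hζ
      have e1 : jj ζ = b.1 := by rw [← hk]
      refine ⟨hz, e1, fun t => ?_⟩
      rw [← hk]
    have hne : ∀ ζ ∈ C.filter (fun ζ => key ζ = b), ((ζ b.1 : ℤ) : ZMod ℓ) ≠ 0 := by
      intro ζ hζ h0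
      obtain ⟨hz, e1, _⟩ := hmem ζ hζ
      have := (hjj ζ hz).1
      rw [e1] at this
      exact this ((ZMod.intCast_zmod_eq_zero_iff_dvd _ ℓ).1 h0)
    have hrat : ∀ ζ ∈ C.filter (fun ζ => key ζ = b), ∀ η ∈ C.filter (fun ζ => key ζ = b), ∀ i : Fin 3,
        ((ζ i : ℤ) : ZMod ℓ) * ((η b.1 : ℤ) : ZMod ℓ) = ((η i : ℤ) : ZMod ℓ) * ((ζ b.1 : ℤ) : ZMod ℓ) := by
      intro ζ hζ η hη i
      have n1 := hne ζ hζ
      have n2 := hne η hη
      rcases Fin.eq_self_or_eq_succAbove b.1 i with hi | ⟨t, hi⟩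
      · rw [hi]; ring
      · have a1 := (hmem ζ hζ).2.2 t
        have a2 := (hmem η hη).2.2 t
        rw [← hi] at a1 a2
        have a3 := a1.trans a2.symm
        field_simp at a3
        linear_combination a3
    refine h1 ℓ b.1 N d (m - 1) K' p hirr hhom hd hK hmK hsize (C.filter (fun ζ => key ζ = b)) ?_ ?_ ?_ ?_
    · intro ζ hζ η hη h
      exact hNP ζ (Finset.mem_filter.1 hζ).1 η (Finset.mem_filter.1 hη).1 h
    · intro ζ hζ
      obtain ⟨hz, e1, _⟩ := hmem ζ hζ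
      refine ⟨(hC ζ hz).1, ?_, (hC ζ hz).2.1⟩
      have := (hjj ζ hz).1
      rwa [e1] at this
    · intro ζ hζ η hη i i'
      rw [← ZMod.intCast_zmod_eq_zero_iff_dvd]
      have n1 := hne ζ hζ
      have n2 := hne η hη
      have r1 := hrat ζ hζ η hη i
      have r2 := hrat ζ hζ η hη i'
      push_cast
      have h3 : (((ζ i : ℤ) : ZMod ℓ) * ((η i' : ℤ) : ZMod ℓ) -
          ((ζ i' : ℤ) : ZMod ℓ) * ((η i : ℤ) : ZMod ℓ)) * ((η b.1 : ℤ) : ZMod ℓ) = 0 := by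
        linear_combination ((η i' : ℤ) : ZMod ℓ) * r1 - ((η i : ℤ) : ZMod ℓ) * r2
      rcases mul_eq_zero.1 h3 with h | h
      · exact h
      · exact absurd h n2
    · refine ⟨ζ₁, hζ₁, ?_⟩
      obtain ⟨hz, e1, _⟩ := hmem ζ₁ hζ₁
      have := (hjj ζ₁ hz).2
      rw [e1] at this
      rwa [Nat.sub_add_cancel hm]
  have hsum : C.card = ∑ b : Fin 3 × (Fin 2 → ZMod ℓ), (C.filter (fun ζ => key ζ = b)).card :=
    Finset.card_eq_sum_card_fiberwise (fun _ _ => Finset.mem_coe.2 (Finset.mem_univ _))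
  rw [hsum]
  refine (Finset.sum_le_card_nsmul _ _ _ (fun b _ => hcell b)).trans (le_of_eq ?_)
  rw [Finset.card_univ, Fintype.card_prod, Fintype.card_fin, Fintype.card_fun, ZMod.card,
    Fintype.card_fin, smul_eq_mul]

end Pool.Agent.WB
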