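import Pool.Agent.helper75.WB.SpecI

/-!
# Row wb:I.IPD (MP_bb5cc8_nt): product of different primes dividing an integer.
-/

set_option autoImplicit false

namespace Pool.Agent.WB

open Finset

theorem IPD : IPD_stmt := by
  intro g hg Z hZ B hB hBZ
  have h1 : (∏ l ∈ Z, l) ∣ g.natAbs := by
    apply Finset.prod_primes_dvd
    · intro l hl
      exact (hZ l hl).1.prime
    · intro l hl
      exact Int.natCast_dvd.1 (hZ l hl).2
  have h2 : ∏ l ∈ Z, l ≤ g.natAbs := Nat.le_of_dvd (Int.natAbs_pos.2 hg) h1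
  calc B ^ Z.card = ∏ _l ∈ Z, B := by rw [Finset.prod_const]
    _ ≤ ∏ l ∈ Z, (l : ℝ) := Finset.prod_le_prod (fun _ _ => by linarith) hBZ
    _ = ((∏ l ∈ Z, l : ℕ) : ℝ) := by push_cast; rfl
    _ ≤ (g.natAbs : ℝ) := by exact_mod_cast h2
    _ = |(g : ℝ)| := by rw [Nat.cast_natAbs, Int.cast_abs]

end Pool.Agent.WB
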